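import Mathlib

namespace Pool.Agent.Results.MP_b44c8b_co.All
open Finset

def Ok (A : Finset ℕ) : Prop := 1 ≤ A.card ∧ A.card ≤ 3 ∧ ∃ j, ∑ x ∈ A, x = 3 ^ j

inductive Gd : Finset ℕ → Prop
  | nil : Gd ∅
  | cons (S A : Finset ℕ) : Gd S → Ok A → Disjoint S A → Gd (S ∪ A)

lemma Gd.part {S : Finset ℕ} (h : Gd S) : ∃ P : Finpartition S, ∀ A ∈ P.parts, Ok A := by
  induction h with
  | nil => exact ⟨Finpartition.empty _, by simp⟩
  | cons S A _ hA hd ih =>
    obtain ⟨P, hP⟩ := ih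
    refine ⟨P.extend (b := A) ?_ hd rfl, ?_⟩
    · rintro rfl; simp [Ok] at hA
    · intro B hB
      simp only [Finpartition.extend_parts, mem_insert] at hB
      rcases hB with rfl | hB
      exacts [hA, hP B hB]

lemma un0 {S T : Finset ℕ} (hS : Gd S) (hT : Gd T) (h : Disjoint S T) : Gd (S ∪ T) := by
  induction hT with
  | nil => simpa using hS
  | cons T A _ hA hd ih =>
    rw [disjoint_union_right] at h
    rw [← union_assoc]
    exact Gd.cons _ _ (ih h.1) hA (disjoint_union_left.2 ⟨h.2, hd⟩)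

lemma un {S T U : Finset ℕ} (hS : Gd S) (hT : Gd T) (h : ∀ x, x ∈ S → x ∈ T → False)
    (e : ∀ x, x ∈ U ↔ x ∈ S ∨ x ∈ T) : Gd U := by
  have : U = S ∪ T := by ext x; simp [e]
  exact this ▸ un0 hS hT (disjoint_left.2 fun x a b => h x a b)

lemma one {A : Finset ℕ} (h : Ok A) : Gd A := by
  simpa using Gd.cons ∅ A Gd.nil h (by simp)

lemma g1 (j : ℕ) : Gd {3 ^ j} := one ⟨by simp, by simp, j, by simp⟩

lemma g2 (j a b : ℕ) (h : a + b = 3 ^ j) : Gd {a, b} := by
  have : a ≠ b := by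
    have : Odd (3 ^ j) := Odd.pow (by decide)
    rcases this with ⟨c, hc⟩; omega
  exact one ⟨by simp [this], by simp [this], j, by simp [this, h]⟩

lemma g3 (j a b c : ℕ) (h : a + b + c = 3 ^ j) (h1 : a ≠ b) (h2 : a ≠ c) (h3 : b ≠ c) :
    Gd {a, b, c} :=
  one ⟨by simp [h1, h2, h3], by simp [h1, h2, h3], j, by simp [h1, h2, h3, ← h, add_assoc]⟩

lemma pairs (j : ℕ) (S : Finset ℕ) (h : ∀ y ∈ S, y ≤ 3 ^ j ∧ 3 ^ j - y ∈ S) : Gd S := by
  induction S using Finset.strongInduction with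
  | H S ih =>
    rcases S.eq_empty_or_nonempty with rfl | ⟨y, hy⟩
    · exact Gd.nil
    have h1 := h y hy
    refine un (ih ((S.erase y).erase (3 ^ j - y)) ?_ ?_) (g2 j y (3 ^ j - y) (by omega)) ?_ ?_
    · exact (erase_subset _ _).trans_ssubset (erase_ssubset hy)
    · intro z hz
      simp only [mem_erase] at hz ⊢
      have := h z hz.2.2
      exact ⟨this.1, by omega, by omega, this.2⟩
    · simp only [mem_erase, mem_insert, mem_singleton]; tauto
    · intro x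
      simp only [mem_erase, mem_insert, mem_singleton]
      constructor
      · tauto
      · rintro (a | rfl | rfl)
        exacts [a.2.2, hy, h1.2]

lemma fam (I : Finset ℕ) (f : ℕ → Finset ℕ) (h : ∀ i ∈ I, Gd (f i))
    (d : ∀ i ∈ I, ∀ j ∈ I, ∀ x, x ∈ f i → x ∈ f j → i = j) : Gd (I.biUnion f) := by
  induction I using Finset.induction with
  | empty => exact Gd.nil
  | insert a I ha ih =>
    refine un (h a (by simp)) (ih (fun i hi => h i (by simp [hi]))
      fun i hi j hj => d i (by simp [hi]) j (by simp [hj])) ?_ (by simp)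
    intro x h1 h2
    obtain ⟨i, hi, h3⟩ := mem_biUnion.1 h2
    exact ha (d a (by simp) i (by simp [hi]) x h1 h3 ▸ hi)

/-- zero-sum triples around `N` -/
lemma mid0 (t c k : ℕ) (h : 3 ^ t = c + 3 * k) :
    Gd ((Icc c (c + 6 * k)).erase (c + 3 * k)) := by
  have e : 3 ^ (t + 1) = 3 * c + 9 * k := by rw [pow_succ]; omega
  refine un
    (fam (range k) (fun i => {c + 3 * i + 2, c + 3 * k + 3 * i + 3, c + 6 * k - 6 * i - 5}) ?_ ?_)
    (fam (range k) (fun i => {c + 3 * k + 3 * i + 2, c + 3 * i, c + 6 * k - 6 * i - 2}) ?_ ?_)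
    ?_ ?_
  · intro i hi; rw [mem_range] at hi
    exact g3 (t + 1) _ _ _ (by omega) (by omega) (by omega) (by omega)
  · simp only [mem_range, mem_insert, mem_singleton]; omega
  · intro i hi; rw [mem_range] at hi
    exact g3 (t + 1) _ _ _ (by omega) (by omega) (by omega) (by omega)
  · simp only [mem_range, mem_insert, mem_singleton]; omega
  · simp only [mem_biUnion, mem_range, mem_insert, mem_singleton]
    rintro x ⟨i, _, _⟩ ⟨j, _, _⟩; omega
  · intro x
    simp only [mem_biUnion, mem_range, mem_insert, mem_singleton, mem_erase, mem_Icc]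
    constructor
    · rintro ⟨h1, h2, h3⟩
      obtain ⟨y, rfl⟩ := Nat.exists_eq_add_of_le h2
      have : y % 3 = 0 ∨ y % 3 = 2 ∨ y % 6 = 1 ∨ y % 6 = 4 := by omega
      rcases this with a | a | a | a
      · by_cases b : y < 3 * k
        · exact Or.inr ⟨y / 3, by omega, by omega⟩
        · exact Or.inl ⟨y / 3 - k - 1, by omega, by omega⟩
      · by_cases b : y < 3 * k
        · exact Or.inl ⟨y / 3, by omega, by omega⟩
        · exact Or.inr ⟨y / 3 - k, by omega, by omega⟩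
      · exact Or.inl ⟨k - 1 - y / 6, by omega, by omega⟩
      · exact Or.inr ⟨k - 1 - y / 6, by omega, by omega⟩
    · rintro (⟨i, _, _⟩ | ⟨i, _, _⟩) <;> omega

lemma mid (t c k : ℕ) (h : 3 ^ t = c + 3 * k) : Gd (Icc c (c + 6 * k)) :=
  un (g1 t) (mid0 t c k h) (by simp [h])
    (by simp only [h, mem_erase, mem_Icc, mem_singleton]; omega)

lemma pw {s t : ℕ} (h : 3 ^ s < 3 ^ t) : 3 * 3 ^ s ≤ 3 ^ t := by
  rw [← pow_succ']
  exact Nat.pow_le_pow_right (by omega) ((Nat.pow_lt_pow_iff_right (by omega)).1 h)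

lemma brk (n : ℕ) (h : 0 < n) : ∃ t, 3 ^ t ≤ n ∧ n < 3 * 3 ^ t :=
  ⟨Nat.log 3 n, Nat.pow_log_le_self 3 h.ne', pow_succ' 3 _ ▸ Nat.lt_pow_succ_log_self (by omega) n⟩

lemma od (t : ℕ) : 3 ^ t % 2 = 1 ∧ (3 ^ t % 3 = 0 ∨ 3 ^ t = 1) := by
  refine ⟨Nat.odd_iff.1 (Odd.pow (by decide)), ?_⟩
  cases t with
  | zero => simp
  | succ t => left; rw [pow_succ]; omega

lemma stepQ (t m : ℕ) (hm : m % 3 = 2) (h2 : 2 * m < 3 ^ t)
    (P : ∀ n < m, Gd (Icc 1 n))
    (Q : ∀ s, 3 ^ s < m → 2 * m ≤ 3 * 3 ^ s + 1 → Gd ((Icc 1 (m - 2)).erase (3 * 3 ^ s + 1 - 2 * m))) :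
    Gd ((Icc 1 (3 ^ t - m + 1)).erase (3 ^ t + 1 - 2 * m)) := by
  obtain ⟨s, h3, h4⟩ := brk m (by omega)
  have o1 := od t
  have o2 := od s
  have e : 3 ^ (s + 1) = 3 * 3 ^ s := pow_succ' 3 s
  have e2 : 3 ^ (s + 2) = 9 * 3 ^ s := by ring
  have h5 := @pw s t (by omega)
  have h6 : 3 * 3 ^ s < 3 ^ t → 9 * 3 ^ s ≤ 3 ^ t := fun h => by
    have := @pw (s + 1) t (by omega); omega
  generalize hN : 3 ^ t = N at *
  generalize hS : 3 ^ s = S at *
  by_cases hA : 2 * m ≤ 3 * S + 1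
  · have q := Q s (by omega) (by omega)
    rw [hS] at q
    by_cases hB : 3 * S = N
    · refine un q (pairs t (Icc (m - 1) (N - m + 1)) ?_) ?_ ?_ <;>
        simp only [hN, mem_erase, mem_Icc] <;> omega
    have r := pairs t (((Icc (m - 1) (N - m + 1)).erase (2 * m - 1)).erase (N + 1 - 2 * m))
      (by simp only [hN, mem_erase, mem_Icc]; omega)
    by_cases hC : 2 * m = 3 * S + 1
    · refine un (un (U := insert (3 * S) (Icc 1 (m - 2))) q (g1 (s + 1)) ?_ ?_) r ?_ ?_ <;>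
        simp only [e, mem_erase, mem_Icc, mem_insert, mem_singleton] <;> omega
    · refine un (un (U := insert (2 * m - 1) (Icc 1 (m - 2))) q
        (g2 (s + 1) (2 * m - 1) (3 * S + 1 - 2 * m) (by omega)) ?_ ?_) r ?_ ?_ <;>
        simp only [mem_erase, mem_Icc, mem_insert, mem_singleton] <;> omega
  · obtain ⟨d, hd⟩ : ∃ d, 3 * S = m + d := ⟨3 * S - m, by omega⟩
    have a1 := g3 (s + 2) (2 * m - 1) d (3 * S + d + 1) (by omega) (by omega) (by omega) (by omega)
    have a2 := g3 t (N - 3 * S) (d + 2) (m - 2) (by omega) (by omega) (by omega) (by omega)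
    have a3 := g3 t (N - 3 * S - d - 1) (3 * S) (d + 1) (by omega) (by omega) (by omega) (by omega)
    have a4 := pairs t (Icc (m - 1) (N - m + 1) \ {2 * m - 1, 3 * S + d + 1, 3 * S, N - 3 * S,
      N - 3 * S - d - 1, N + 1 - 2 * m})
      (by simp only [hN, mem_sdiff, mem_Icc, mem_insert, mem_singleton]; omega)
    have a5 := pairs (s + 1) (Icc (d + 3) (m - 3)) (by simp only [e, mem_Icc]; omega)
    have a6 := P (d - 1) (by omega)
    have b1 : Gd (Icc 1 (d - 1) ∪ Icc (d + 3) (m - 3)) :=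
      un a6 a5 (by simp only [mem_Icc]; omega) (by simp only [mem_union]; tauto)
    have b2 := un0 a1 a2 (by simp only [disjoint_left, mem_insert, mem_singleton]; omega)
    have b3 := un0 b2 a3 (by simp only [disjoint_left, mem_union, mem_insert, mem_singleton]; omega)
    have b4 : Gd (Icc 1 (m - 2) ∪ {2 * m - 1, 3 * S + d + 1, 3 * S, N - 3 * S,
      N - 3 * S - d - 1}) := by
      refine un b1 b3 ?_ ?_ <;>
        simp only [mem_union, mem_Icc, mem_insert, mem_singleton] <;> omega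
    refine un b4 a4 ?_ ?_ <;>
      simp only [mem_union, mem_sdiff, mem_erase, mem_Icc, mem_insert, mem_singleton] <;> omega

lemma main (n : ℕ) : Gd (Icc 1 n) ∧ (n % 3 = 2 → ∀ t, 3 ^ t < n → 2 * n ≤ 3 * 3 ^ t + 1 →
    Gd ((Icc 1 (n - 2)).erase (3 * 3 ^ t + 1 - 2 * n))) := by
  induction n using Nat.strong_induction_on with
  | _ n ih =>
  have hQ : n % 3 = 2 → ∀ t, 3 ^ t < n → 2 * n ≤ 3 * 3 ^ t + 1 →
      Gd ((Icc 1 (n - 2)).erase (3 * 3 ^ t + 1 - 2 * n)) := by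
    intro h1 t h2 h3
    by_cases h4 : 2 * n = 3 * 3 ^ t + 1
    · rw [← h4, Nat.sub_self, erase_eq_of_notMem (by simp)]
      exact (ih _ (by omega)).1
    have o := od t
    obtain ⟨m, rfl⟩ := Nat.exists_eq_add_of_le h2.le
    have a := stepQ t m (by omega) (by omega) (fun k hk => (ih k (by omega)).1)
      ((ih m (by omega)).2 (by omega))
    refine un a (mid t (3 ^ t - m + 2) (m / 3) (by omega)) ?_ ?_ <;>
      simp only [mem_erase, mem_Icc] <;> omega
  refine ⟨?_, hQ⟩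
  rcases Nat.eq_zero_or_pos n with rfl | h0
  · exact Gd.nil
  obtain ⟨t, h1, h2⟩ := brk n h0
  have o := od t
  have e : 3 ^ (t + 1) = 3 * 3 ^ t := pow_succ' 3 t
  by_cases h3 : 3 * 3 ^ t < 2 * n
  · refine un (ih (3 * 3 ^ t - n - 1) (by omega)).1 (pairs (t + 1) (Icc (3 * 3 ^ t - n) n) ?_) ?_ ?_ <;>
      simp only [e, mem_Icc] <;> omega
  obtain ⟨m, rfl⟩ := Nat.exists_eq_add_of_le h1
  have h4 : m % 3 = 0 ∨ m % 3 = 1 ∨ m % 3 = 2 := by omega
  have p := (ih (3 ^ t - m - 1) (by omega)).1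
  rcases h4 with h4 | h4 | h4
  · refine un p (mid t (3 ^ t - m) (m / 3) (by omega)) ?_ ?_ <;> simp only [mem_Icc] <;> omega
  · refine un p (un (U := Icc (3 ^ t - m) (3 ^ t + m)) (mid0 t (3 ^ t - m + 1) (m / 3) (by omega))
      (g3 (t + 1) (3 ^ t - m) (3 ^ t) (3 ^ t + m) (by omega) (by omega) (by omega) (by omega))
      ?_ ?_) ?_ ?_ <;> simp only [mem_erase, mem_Icc, mem_insert, mem_singleton] <;> omega
  · refine un (hQ (by omega) t (by omega) (by omega)) (g3 (t + 1) (3 ^ t + m) (3 ^ t + m - 1)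
      (3 ^ t + 1 - 2 * m) (by omega) (by omega) (by omega) (by omega)) ?_ ?_ <;>
      simp only [mem_erase, mem_Icc, mem_insert, mem_singleton] <;> omega

theorem result (n : ℕ) (_hn : 0 < n) : ∃ P : Finpartition (Icc 1 n),
    ∀ A ∈ P.parts, 1 ≤ A.card ∧ A.card ≤ 3 ∧ ∃ j : ℕ, ∑ x ∈ A, x = 3 ^ j :=
  (main n).1.part

end Pool.Agent.Results.MP_b44c8b_co.All
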